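import Pool.Agent.CPT.StmtsD

/-!
Row BAU: step (A) for limits.
-/

set_option autoImplicit false

namespace Pool.Agent.CPT.H21

open MvPolynomial Pool.Agent.CPT

theorem gen1_ne {E : Type} [Field E] {n : ℕ} {G : MvPolynomial (Fin n) (Polynomial E)}
    (h : at0 G ≠ 0) : gen1 G ≠ 0 := by
  intro h0
  apply h
  have hG : G = 0 := by
    have hinj := MvPolynomial.map_injective (σ := Fin n) (algebraMap (Polynomial E) (EE E))
      (IsFractionRing.injective (Polynomial E) (EE E))
    apply hinj
    rw [map_zero]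
    exact h0
  rw [hG]
  exact map_zero _

theorem bau (h1 : AubStmt) (h2 : BriStmt) : BauStmt := by
  intro E _ n s N F hF hlim hind
  obtain ⟨G, hG, hch⟩ := hlim
  subst hG
  exact h1 (EE E) n s N (gen1 G) (gen1_ne hF) hch (h2 E n N G hF hind)

end Pool.Agent.CPT.H21
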