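import Pool.Agent.CPT.StmtsB

/-!
Row LDV: coefficientwise derivations of Laurent series.
-/

set_option autoImplicit false

namespace Pool.Agent.CPT.H21

open Pool.Agent.CPT

/-- an additive map with the Leibniz rule is a derivation over `ℤ` -/
theorem mkder {A : Type} [CommRing A] (alg : Algebra ℤ A) (md : Module ℤ A) (f : A →+ A)
    (hl : ∀ a b, f (a * b) = a * f b + b * f a) :
    ∃ D : @Derivation ℤ A A _ _ _ alg _ md, ∀ a, D a = f a := by
  have e1 : alg = Ring.toIntAlgebra A := Subsingleton.elim _ _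
  have e2 : md = AddCommGroup.toIntModule A := Subsingleton.elim _ _
  subst e1
  subst e2
  exact ⟨Derivation.mk' f.toIntLinearMap (fun a b => hl a b), fun a => rfl⟩

/-- the coefficientwise map -/
noncomputable def dmap {Λ : Type} [Field Λ] (δ : Derivation ℤ Λ Λ) (f : LaurentSeries Λ) :
    LaurentSeries Λ :=
  HahnSeries.map f δ.toAddMonoidHom

theorem dmap_coeff {Λ : Type} [Field Λ] (δ : Derivation ℤ Λ Λ) (f : LaurentSeries Λ) (m : ℤ) :
    (dmap δ f).coeff m = δ (f.coeff m) := rfl

theorem dmap_supp {Λ : Type} [Field Λ] (δ : Derivation ℤ Λ Λ) (f : LaurentSeries Λ) :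
    (dmap δ f).support ⊆ f.support := by
  intro m hm hf
  apply hm
  show (dmap δ f).coeff m = 0
  rw [dmap_coeff]
  have : f.coeff m = 0 := hf
  rw [this, map_zero]

/-- the additive map -/
noncomputable def dadd {Λ : Type} [Field Λ] (δ : Derivation ℤ Λ Λ) :
    LaurentSeries Λ →+ LaurentSeries Λ where
  toFun := dmap δ
  map_zero' := by
    ext m
    rw [dmap_coeff, HahnSeries.coeff_zero, map_zero]
  map_add' f g := by
    ext m
    rw [HahnSeries.coeff_add', Pi.add_apply, dmap_coeff, dmap_coeff, dmap_coeff,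
      HahnSeries.coeff_add', Pi.add_apply, map_add]

theorem dadd_mul {Λ : Type} [Field Λ] (δ : Derivation ℤ Λ Λ) (f g : LaurentSeries Λ) :
    dadd δ (f * g) = f * dadd δ g + g * dadd δ f := by
  show dmap δ (f * g) = f * dmap δ g + g * dmap δ f
  ext m
  rw [mul_comm g, HahnSeries.coeff_add', Pi.add_apply, dmap_coeff,
    HahnSeries.coeff_mul, HahnSeries.coeff_mul_right' g.isPWO_support (dmap_supp δ g),
    HahnSeries.coeff_mul_left' f.isPWO_support (dmap_supp δ f), map_sum,
    ← Finset.sum_add_distrib]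
  refine Finset.sum_congr rfl fun i _ => ?_
  rw [Derivation.leibniz, dmap_coeff, dmap_coeff, smul_eq_mul, smul_eq_mul,
    mul_comm (g.coeff i.2)]

theorem ldv : LdvStmt := by
  intro Λ _ δ
  obtain ⟨D, hD⟩ := mkder (A := LaurentSeries Λ) inferInstance inferInstance (dadd δ)
    (dadd_mul δ)
  refine ⟨D, fun f m => ?_⟩
  rw [hD]
  exact dmap_coeff δ f m

end Pool.Agent.CPT.H21
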